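import Pool.Agent.T6.H53.WL.Rate

/-!
The width of the planar self-avoiding polygons: large deviations, tails and moments.
-/

set_option autoImplicit false

namespace Pool.Agent.T6.H53.WL

open Pool.Agent.TH795.EP Pool.Agent.TH795.EP2 Pool.Agent.TH795.SE2 Pool.Agent.TH262.SawL
  Pool.Agent.Y981.L2 H981 Finset Filter Topology

theorem R_convex : ConvexOn ℝ (Set.Icc 0 1) R := by
  refine ⟨convex_Icc 0 1, ?_⟩
  intro u hu v hv s t hs ht hst
  have h := convex_rate.2 (dia_one hu.1 hu.2) (dia_one hv.1 hv.2) hs ht hst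
  unfold R
  refine le_trans (le_of_eq ?_) h
  congr 1
  ext <;> simp

theorem R_cont : ContinuousOn R (Set.Icc 0 1) := by
  intro v0 hv0
  rw [Metric.continuousWithinAt_iff]
  intro ε hε
  obtain ⟨e, he, h1⟩ := Y981.L2X.R_le_exists hv0.1 (d := ε / 2) (by linarith)
  have hm := mass_pos he
  have hmu := log_mu_nonneg
  obtain ⟨δ2, hδ2, h2⟩ : ∃ δ2 : ℝ, 0 < δ2 ∧ ∀ v ∈ Set.Icc (0 : ℝ) 1, v - v0 < δ2 →
      R v < R v0 + ε := by
    rcases eq_or_lt_of_le hv0.2 with h0 | h0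
    · refine ⟨1, one_pos, fun v hv _ => ?_⟩
      have := R_mono hv.1 (show v ≤ v0 by rw [h0]; exact hv.2) hv0.2
      linarith
    · have h00 : 0 < 1 - v0 := by linarith
      refine ⟨ε * (1 - v0) / (Real.log mu + 1), by positivity, fun v hv hd => ?_⟩
      rcases le_or_gt v v0 with h3 | h3
      · have := R_mono hv.1 h3 hv0.2
        linarith
      · set t := (v - v0) / (1 - v0) with ht
        have ht0 : 0 ≤ t := div_nonneg (by linarith) h00.le
        have ht1 : t ≤ 1 := by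
          rw [ht, div_le_one h00]
          linarith [hv.2]
        have h4 := R_convex.2 hv0 (show (1 : ℝ) ∈ Set.Icc (0 : ℝ) 1 by simp)
          (show 0 ≤ 1 - t by linarith) ht0 (by ring)
        have e1 : (1 - t) • v0 + t • (1 : ℝ) = v := by
          simp only [smul_eq_mul]
          have : t * (1 - v0) = v - v0 := by rw [ht]; field_simp
          linarith
        rw [e1, R_one, smul_eq_mul, smul_eq_mul] at h4
        have h5 := R_nonneg hv0.1 hv0.2
        have h6 : t * Real.log mu < ε := by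
          have h7 : t < ε / (Real.log mu + 1) := by
            rw [ht, div_lt_iff₀ h00]
            calc v - v0 < ε * (1 - v0) / (Real.log mu + 1) := hd
              _ = _ := by ring
          rw [lt_div_iff₀ (by linarith)] at h7
          nlinarith
        nlinarith
  refine ⟨min δ2 (ε / (2 * (mass e + 1))), lt_min hδ2 (by positivity), fun v hv hd => ?_⟩
  rw [Real.dist_eq] at hd ⊢
  obtain ⟨hd1, hd2⟩ := abs_lt.1 (hd.trans_le (min_le_left _ _))
  obtain ⟨hd3, hd4⟩ := abs_lt.1 (hd.trans_le (min_le_right _ _))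
  have g1 := h2 v hv hd2
  have g2 := Y981.L2X.le_R hv.1 hv.2 he
  have g3 : (v0 - v) * mass e < ε / 2 := by
    have g4 : v0 - v < ε / (2 * (mass e + 1)) := by linarith
    rcases le_or_gt (v0 - v) 0 with g5 | g5
    · have : (v0 - v) * mass e ≤ 0 := mul_nonpos_of_nonpos_of_nonneg g5 hm.le
      linarith
    · rw [lt_div_iff₀ (by positivity)] at g4
      nlinarith
  rw [abs_lt]
  constructor <;> nlinarith

/-- **Uniform two-sided bounds of the tail of the width.** -/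
theorem wide_bounds : ∃ C : ℝ, 1 ≤ C ∧ ∀ n : ℕ, 2 ≤ n → ∀ k : ℕ, 1 ≤ k → k < n →
    Real.exp (-(C * ((k : ℝ) ^ 2 / n * (1 + Real.log (n / k)) ^ 2 + Real.log n ^ 2))) ≤ pw n k ∧
    pw n k ≤ Real.exp (C * Real.log n ^ 2 - 2 * n * Real.exp (-(C * Yv ((k : ℝ) / n)))) := by
  obtain ⟨K, hK, h⟩ := pw_ldp
  obtain ⟨C1, hC1, h1⟩ := R_lower
  obtain ⟨C2, hC2, h2⟩ := R_upper
  refine ⟨K + C1 + 2 * C2, by linarith, fun n hn k hk hkn => ?_⟩
  have hn0 : (0 : ℝ) < n := by exact_mod_cast (by omega : 0 < n)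
  have hk0 : (0 : ℝ) < k := by exact_mod_cast (by omega : 0 < k)
  have hu : 0 < (k : ℝ) / n := by positivity
  have hu1 : (k : ℝ) / n ≤ 1 := by
    rw [div_le_one hn0]
    exact_mod_cast hkn.le
  obtain ⟨g1, g2⟩ := h n hn k hk hkn
  have g3 := h1 _ hu hu1
  have g4 := h2 _ hu hu1
  rw [one_div_div] at g4
  have hL2 : 0 ≤ Real.log (n : ℝ) ^ 2 := by positivity
  constructor
  · refine le_trans (Real.exp_le_exp.2 ?_) g1
    have g5 : (n : ℝ) * R ((k : ℝ) / n) ≤ C2 * ((k : ℝ) ^ 2 / n * (1 + Real.log (n / k)) ^ 2) := by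
      calc (n : ℝ) * R ((k : ℝ) / n)
          ≤ n * (C2 * (((k : ℝ) / n) ^ 2 * (1 + Real.log (n / k)) ^ 2)) :=
            mul_le_mul_of_nonneg_left g4 hn0.le
        _ = _ := by field_simp
    have hp : 0 ≤ (k : ℝ) ^ 2 / n * (1 + Real.log (n / k)) ^ 2 := by positivity
    nlinarith [mul_nonneg (show 0 ≤ K + C1 by linarith) hp,
      mul_nonneg (show 0 ≤ C1 + 2 * C2 by linarith) hL2]
  · refine g2.trans (Real.exp_le_exp.2 ?_)
    have g5 : Real.exp (-((K + C1 + 2 * C2) * Yv ((k : ℝ) / n))) ≤ R ((k : ℝ) / n) := by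
      refine le_trans (Real.exp_le_exp.2 ?_) g3
      have := one_le_Yv hu hu1
      nlinarith
    have g6 := mul_le_mul_of_nonneg_left g5 (show 0 ≤ 2 * (n : ℝ) by positivity)
    nlinarith [mul_nonneg (show 0 ≤ C1 + 2 * C2 by linarith) hL2]

theorem pw_le_one {n : ℕ} (hn : 1 ≤ n) (r : ℝ) : pw n r ≤ 1 := by
  unfold pw
  refine div_le_one_of_le₀ ?_ (Nat.cast_nonneg _)
  have h1 := Set.ncard_le_ncard (fun f (hf : f ∈ {f : ZMod (2 * n) → ℤ × ℤ |
    IsLoop (2 * n) f ∧ r ≤ width (2 * n) f}) => hf.1) (loops_finite hn)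
  exact_mod_cast h1

theorem pw_nonneg (n : ℕ) (r : ℝ) : 0 ≤ pw n r := by
  unfold pw
  positivity

theorem log_sq_div : Tendsto (fun n : ℕ => Real.log (n : ℝ) ^ 2 / n) atTop (𝓝 0) := by
  have h := Real.tendsto_pow_log_div_mul_add_atTop 1 0 2 one_ne_zero
  simp only [one_mul, add_zero] at h
  exact h.comp tendsto_natCast_atTop_atTop

/-- **Large deviations.** -/
theorem ldp {u : ℝ} (hu : 0 < u) (hu1 : u < 1) :
    Tendsto (fun n : ℕ => Real.log (pw n (u * n)) / n) atTop (𝓝 (-(2 * R u))) ∧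
    ∀ᶠ n : ℕ in atTop, 0 < pw n (u * n) := by
  obtain ⟨K, hK, h⟩ := pw_ldp
  have hk : Tendsto (fun n : ℕ => ((⌈u * (n : ℝ)⌉₊ : ℕ) : ℝ) / n) atTop (𝓝 u) := by
    have := (tendsto_nat_ceil_mul_div_atTop hu.le).comp tendsto_natCast_atTop_atTop (α := ℕ)
    exact this
  have hlt : ∀ᶠ n : ℕ in atTop, ((⌈u * (n : ℝ)⌉₊ : ℕ) : ℝ) / n < 1 :=
    hk.eventually (gt_mem_nhds hu1)
  have hR : Tendsto (fun n : ℕ => R (((⌈u * (n : ℝ)⌉₊ : ℕ) : ℝ) / n)) atTop (𝓝 (R u)) := by
    have h1 := R_cont u ⟨hu.le, hu1.le⟩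
    refine h1.tendsto.comp (tendsto_nhdsWithin_iff.2 ⟨hk, ?_⟩)
    filter_upwards [hlt] with n hn
    exact ⟨by positivity, hn.le⟩
  have hev : ∀ᶠ n : ℕ in atTop, 1 ≤ n ∧ 2 ≤ n ∧ 1 ≤ ⌈u * (n : ℝ)⌉₊ ∧ ⌈u * (n : ℝ)⌉₊ < n := by
    filter_upwards [hlt, eventually_ge_atTop 2] with n h1 h2
    have hn0 : (0 : ℝ) < n := by exact_mod_cast (by omega : 0 < n)
    refine ⟨by omega, h2, Nat.ceil_pos.2 (by positivity), ?_⟩
    rw [div_lt_one hn0] at h1
    exact_mod_cast h1
  constructor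
  · have hlow : Tendsto (fun n : ℕ => -(2 * R (((⌈u * (n : ℝ)⌉₊ : ℕ) : ℝ) / n)) -
        K * (Real.log (n : ℝ) ^ 2 / n)) atTop (𝓝 (-(2 * R u))) := by
      have h1 := (hR.const_mul 2).neg.sub (log_sq_div.const_mul K)
      simpa using h1
    have hup : Tendsto (fun n : ℕ => -(2 * R (((⌈u * (n : ℝ)⌉₊ : ℕ) : ℝ) / n)) +
        K * (Real.log (n : ℝ) ^ 2 / n)) atTop (𝓝 (-(2 * R u))) := by
      have h1 := (hR.const_mul 2).neg.add (log_sq_div.const_mul K)
      simpa using h1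
    refine tendsto_of_tendsto_of_tendsto_of_le_of_le' hlow hup ?_ ?_
    · filter_upwards [hev] with n hn
      obtain ⟨h1, h2, h3, h4⟩ := hn
      have hn0 : (0 : ℝ) < n := by exact_mod_cast (by omega : 0 < n)
      obtain ⟨g1, -⟩ := h n h2 _ h3 h4
      rw [pw_ceil, le_div_iff₀ hn0]
      have g3 := Real.log_le_log (Real.exp_pos _) g1
      rw [Real.log_exp] at g3
      refine le_trans (le_of_eq ?_) g3
      field_simp
      ring
    · filter_upwards [hev] with n hn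
      obtain ⟨h1, h2, h3, h4⟩ := hn
      have hn0 : (0 : ℝ) < n := by exact_mod_cast (by omega : 0 < n)
      obtain ⟨g1, g2⟩ := h n h2 _ h3 h4
      rw [pw_ceil, div_le_iff₀ hn0]
      have g3 := Real.log_le_log ((Real.exp_pos _).trans_le g1) g2
      rw [Real.log_exp] at g3
      refine le_trans g3 (le_of_eq ?_)
      field_simp
  · filter_upwards [hev] with n hn
    obtain ⟨h1, h2, h3, h4⟩ := hn
    rw [pw_ceil]
    exact (Real.exp_pos _).trans_le (h n h2 _ h3 h4).1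

/-- the proportion of the polygons with `r ≤ width < s` -/
noncomputable def pb (n : ℕ) (r s : ℝ) : ℝ :=
  ({f : ZMod (2 * n) → ℤ × ℤ | IsLoop (2 * n) f ∧ r ≤ width (2 * n) f ∧
    (width (2 * n) f : ℝ) < s}.ncard : ℝ) /
    ({f : ZMod (2 * n) → ℤ × ℤ | IsLoop (2 * n) f}.ncard : ℝ)

theorem pb_eq {n : ℕ} (hn : 1 ≤ n) {r s : ℝ} (h : r ≤ s) : pb n r s = pw n r - pw n s := by
  have hfin := loops_finite hn
  unfold pb pw
  rw [← sub_div]
  congr 1
  have h1 : {f : ZMod (2 * n) → ℤ × ℤ | IsLoop (2 * n) f ∧ r ≤ width (2 * n) f} =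
      {f : ZMod (2 * n) → ℤ × ℤ | IsLoop (2 * n) f ∧ r ≤ width (2 * n) f ∧
        (width (2 * n) f : ℝ) < s} ∪
      {f : ZMod (2 * n) → ℤ × ℤ | IsLoop (2 * n) f ∧ s ≤ width (2 * n) f} := by
    ext f
    simp only [Set.mem_union, Set.mem_ofPred_eq]
    constructor
    · rintro ⟨a1, a2⟩
      rcases lt_or_ge (width (2 * n) f : ℝ) s with h3 | h3
      · exact Or.inl ⟨a1, a2, h3⟩
      · exact Or.inr ⟨a1, h3⟩
    · rintro (⟨a1, a2, _⟩ | ⟨a1, a2⟩)
      · exact ⟨a1, a2⟩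
      · exact ⟨a1, h.trans a2⟩
  have hdis : Disjoint {f : ZMod (2 * n) → ℤ × ℤ | IsLoop (2 * n) f ∧ r ≤ width (2 * n) f ∧
        (width (2 * n) f : ℝ) < s}
      {f : ZMod (2 * n) → ℤ × ℤ | IsLoop (2 * n) f ∧ s ≤ width (2 * n) f} := by
    rw [Set.disjoint_left]
    rintro f ⟨_, _, a3⟩ ⟨_, a4⟩
    exact absurd a4 (not_le.2 a3)
  rw [h1, Set.ncard_union_eq hdis (hfin.subset (fun f hf => hf.1))
    (hfin.subset (fun f hf => hf.1))]
  push_cast
  ring

/-- **Large deviations, intervals.** -/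
theorem ldp_between {u v : ℝ} (hu : 0 < u) (huv : u < v) (hv : v < 1) :
    Tendsto (fun n : ℕ => Real.log (pb n (u * n) (v * n)) / n) atTop (𝓝 (-(2 * R u))) := by
  obtain ⟨h1, h1'⟩ := ldp hu (huv.trans hv)
  obtain ⟨h2, h2'⟩ := ldp (hu.trans huv) hv
  have hR := R_strict hu.le huv hv.le
  -- the ratio is eventually at most one half
  have h3 : Tendsto (fun n : ℕ => Real.log (pw n (v * n)) / n - Real.log (pw n (u * n)) / n)
      atTop (𝓝 (-(2 * R v) - -(2 * R u))) := h2.sub h1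
  have h4 : ∀ᶠ n : ℕ in atTop, Real.log (pw n (v * n)) / n - Real.log (pw n (u * n)) / n <
      -(R v - R u) := h3.eventually (gt_mem_nhds (by linarith))
  have h5 : ∀ᶠ n : ℕ in atTop, Real.log 2 / (R v - R u) ≤ (n : ℝ) :=
    tendsto_natCast_atTop_atTop.eventually_ge_atTop _
  have hhalf : ∀ᶠ n : ℕ in atTop, 0 < pw n (u * n) ∧ 1 ≤ n ∧
      pw n (u * n) / 2 ≤ pb n (u * n) (v * n) ∧ pb n (u * n) (v * n) ≤ pw n (u * n) := by
    filter_upwards [h4, h5, h1', h2', eventually_ge_atTop 1] with n g1 g2 g3 g4 g5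
    have hn0 : (0 : ℝ) < n := by exact_mod_cast (by omega : 0 < n)
    have hle : u * (n : ℝ) ≤ v * n := mul_le_mul_of_nonneg_right huv.le hn0.le
    rw [pb_eq g5 hle]
    rw [div_le_iff₀ (by linarith)] at g2
    rw [← sub_div, div_lt_iff₀ hn0] at g1
    have g6 : Real.log (pw n (v * n)) ≤ Real.log (pw n (u * n) / 2) := by
      rw [Real.log_div g3.ne' (by norm_num)]
      nlinarith
    have g7 : pw n (v * n) ≤ pw n (u * n) / 2 :=
      (Real.log_le_log_iff g4 (by positivity)).1 g6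
    have g8 := pw_nonneg n (v * n)
    exact ⟨g3, g5, by linarith, by linarith⟩
  have hlow : Tendsto (fun n : ℕ => Real.log (pw n (u * n)) / n - Real.log 2 / n) atTop
      (𝓝 (-(2 * R u))) := by
    have := h1.sub (tendsto_const_div_atTop_nhds_zero_nat (Real.log 2))
    simpa using this
  refine tendsto_of_tendsto_of_tendsto_of_le_of_le' hlow h1 ?_ ?_
  · filter_upwards [hhalf] with n hn
    obtain ⟨g1, g2, g3, g4⟩ := hn
    rw [← sub_div, ← Real.log_div g1.ne' (by norm_num)]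
    exact div_le_div_of_nonneg_right (Real.log_le_log (by positivity) g3) (Nat.cast_nonneg _)
  · filter_upwards [hhalf] with n hn
    obtain ⟨g1, g2, g3, g4⟩ := hn
    exact div_le_div_of_nonneg_right (Real.log_le_log (by linarith) g4) (Nat.cast_nonneg _)

theorem log16 : 2.77 ≤ Real.log 16 := by
  have h2 := Real.log_two_gt_d9
  have h3 : Real.log 16 = 4 * Real.log 2 := by
    rw [show (16 : ℝ) = 2 ^ 4 by norm_num, Real.log_pow]
    norm_num
  linarith

theorem log_ge' {n : ℕ} (hn : 16 ≤ n) : 2.77 ≤ Real.log (n : ℝ) :=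
  log16.trans (Real.log_le_log (by norm_num) (by exact_mod_cast hn))

theorem ll_ge {n : ℕ} (hn : 16 ≤ n) : 1 ≤ Real.log (Real.log (n : ℝ)) := by
  have h5 := Real.exp_one_lt_d9
  have h6 := log_ge' hn
  rw [Real.le_log_iff_exp_le (by linarith)]
  linarith

theorem tend_ll : Tendsto (fun n : ℕ => Real.log (n : ℝ) / Real.log (Real.log (n : ℝ)))
    atTop atTop := Y981.L2X.loglog_tendsto

/-- **Typical size.** -/
theorem width_typ {δ : ℝ} (hδ0 : 0 < δ) (hδ : δ < 1) : ∃ c C : ℝ, 0 < c ∧ c ≤ 1 ∧ 0 < C ∧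
    ∀ n : ℕ, 16 ≤ n → pw n ((n : ℝ) ^ (1 - c / Real.log (Real.log n))) ≤
      C * Real.exp (-(n : ℝ) ^ δ) := by
  obtain ⟨C0, hC0, h⟩ := wide_bounds
  have hδ' : 0 < 1 - δ := by linarith
  set c := min 1 ((1 - δ) / (12 * C0)) with hc
  have hc0 : 0 < c := lt_min one_pos (by positivity)
  have hc1 : c ≤ 1 := min_le_left _ _
  have hc2 : 3 * c * C0 ≤ (1 - δ) / 4 := by
    have h1 : c ≤ (1 - δ) / (12 * C0) := min_le_right _ _
    rw [le_div_iff₀ (by positivity)] at h1
    linarith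
  have hev1 : ∀ᶠ n : ℕ in atTop, 12 * C0 / (1 - δ) + Real.log 2 / c ≤
      Real.log (n : ℝ) / Real.log (Real.log (n : ℝ)) := tend_ll.eventually_ge_atTop _
  have hev2 := ev_log (β := (1 + δ) / 2) C0 0 (by linarith)
  obtain ⟨n1, hn1⟩ := eventually_atTop.1 (hev1.and hev2)
  refine ⟨c, Real.exp n1, hc0, hc1, Real.exp_pos _, fun n hn => ?_⟩
  have hn16 : (16 : ℝ) ≤ n := by exact_mod_cast hn
  have hn0 : (0 : ℝ) < n := by linarith
  rcases le_or_gt n1 n with hnn | hnn
  · obtain ⟨a1, a2⟩ := hn1 n hnn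
    have hL := log_ge' hn
    have hll := ll_ge hn
    set L := Real.log (n : ℝ) with hLdef
    set ll := Real.log L with hlldef
    set lam := c * L / ll with hlam
    have hlam0 : 0 < lam := by positivity
    have hlam1 : lam ≤ L := by
      rw [hlam, div_le_iff₀ (by linarith)]
      nlinarith
    have hl2 : 0 ≤ Real.log 2 := Real.log_nonneg (by norm_num)
    have b0 : 0 ≤ 12 * C0 / (1 - δ) := by positivity
    have b0' : 0 ≤ Real.log 2 / c := by positivity
    have b1 : 12 * C0 * ll ≤ (1 - δ) * L := by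
      have h1 : 12 * C0 / (1 - δ) ≤ L / ll := by linarith
      rw [div_le_div_iff₀ hδ' (by linarith)] at h1
      linarith
    have b2 : Real.log 2 ≤ lam := by
      have h1 : Real.log 2 / c ≤ L / ll := by linarith
      rw [div_le_iff₀ hc0] at h1
      rw [hlam]
      calc Real.log 2 ≤ L / ll * c := h1
        _ = c * L / ll := by ring
    set X := (n : ℝ) ^ (1 - c / ll) with hX
    have hne : (n : ℝ) = Real.exp L := by rw [hLdef, Real.exp_log hn0]
    have hXe : X = n * Real.exp (-lam) := by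
      calc X = Real.exp (L * (1 - c / ll)) := by rw [hX, Real.rpow_def_of_pos hn0, ← hLdef]
        _ = Real.exp (L + -lam) := by
            congr 1
            rw [hlam]
            ring
        _ = n * Real.exp (-lam) := by rw [Real.exp_add, ← hne]
    have hX0 : 0 < X := by rw [hXe]; positivity
    have hXn : X ≤ n / 2 := by
      have h1 : Real.exp (-lam) ≤ 1 / 2 := by
        calc Real.exp (-lam) ≤ Real.exp (-Real.log 2) := Real.exp_le_exp.2 (by linarith)
          _ = 1 / 2 := by rw [Real.exp_neg, Real.exp_log (by norm_num)]; norm_num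
      rw [hXe]
      nlinarith
    set k := ⌈X⌉₊ with hk
    have hk1 : 1 ≤ k := Nat.ceil_pos.2 hX0
    have hkX : X ≤ k := Nat.le_ceil _
    have hkn : k < n := by
      have h1 : (k : ℝ) < X + 1 := Nat.ceil_lt_add_one hX0.le
      have h2 : (k : ℝ) < n := by linarith
      exact_mod_cast h2
    have hk0 : (0 : ℝ) < k := by exact_mod_cast hk1
    have hu : 0 < (k : ℝ) / n := by positivity
    have hu1 : (k : ℝ) / n ≤ 1 := by
      rw [div_le_one hn0]
      exact_mod_cast hkn.le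
    have hlog : Real.log (1 / ((k : ℝ) / n)) ≤ lam := by
      have h1 : Real.exp (-lam) ≤ (k : ℝ) / n := by
        rw [le_div_iff₀ hn0, mul_comm, ← hXe]
        exact hkX
      have h2 := Real.log_le_log (Real.exp_pos _) h1
      rw [Real.log_exp] at h2
      rw [one_div, Real.log_inv]
      linarith
    have hlog0 := log_inv_nonneg hu hu1
    have hY : Yv ((k : ℝ) / n) ≤ 3 * ll + 3 * c * L := by
      have h1 : Real.log (1 + Real.log (1 / ((k : ℝ) / n))) ≤ 2 * ll := by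
        have h2 : 1 + Real.log (1 / ((k : ℝ) / n)) ≤ L ^ 2 := by nlinarith
        have h3 := Real.log_le_log (show 0 < 1 + Real.log (1 / ((k : ℝ) / n)) by linarith) h2
        rw [Real.log_pow] at h3
        push_cast at h3
        exact h3
      have h0 : 0 ≤ Real.log (1 + Real.log (1 / ((k : ℝ) / n))) := Real.log_nonneg (by linarith)
      unfold Yv
      calc (1 + Real.log (1 / ((k : ℝ) / n))) * (1 + Real.log (1 + Real.log (1 / ((k : ℝ) / n))))
          ≤ (1 + lam) * (3 * ll) := by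
            apply mul_le_mul (by linarith) (by linarith) (by linarith) (by linarith)
        _ = 3 * ll + 3 * c * L := by
            rw [hlam]
            field_simp
    obtain ⟨-, g2⟩ := h n (by omega) k hk1 hkn
    rw [pw_ceil, ← hk]
    have g3 : (n : ℝ) ^ ((1 + δ) / 2) ≤ n * Real.exp (-(C0 * Yv ((k : ℝ) / n))) := by
      have g4 := mul_le_mul_of_nonneg_left hY (show 0 ≤ C0 by linarith)
      have g5 := mul_le_mul_of_nonneg_right hc2 (show 0 ≤ L by linarith)
      calc (n : ℝ) ^ ((1 + δ) / 2) = Real.exp (L * ((1 + δ) / 2)) := by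
            rw [Real.rpow_def_of_pos hn0, ← hLdef]
        _ ≤ Real.exp (L + -(C0 * Yv ((k : ℝ) / n))) := by
            apply Real.exp_le_exp.2
            nlinarith
        _ = n * Real.exp (-(C0 * Yv ((k : ℝ) / n))) := by rw [Real.exp_add, ← hne]
    have g4 : (n : ℝ) ^ δ ≤ (n : ℝ) ^ ((1 + δ) / 2) :=
      Real.rpow_le_rpow_of_exponent_le (by linarith) (by linarith)
    calc pw n k ≤ Real.exp (-(n : ℝ) ^ δ) := g2.trans (Real.exp_le_exp.2 (by linarith))
      _ = 1 * Real.exp (-(n : ℝ) ^ δ) := (one_mul _).symm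
      _ ≤ Real.exp n1 * Real.exp (-(n : ℝ) ^ δ) :=
          mul_le_mul_of_nonneg_right (Real.one_le_exp (Nat.cast_nonneg _)) (Real.exp_pos _).le
  · refine (pw_le_one (by omega) _).trans ?_
    have h8 : (n : ℝ) ^ δ ≤ n1 := by
      calc (n : ℝ) ^ δ ≤ (n : ℝ) ^ (1 : ℝ) :=
            Real.rpow_le_rpow_of_exponent_le (by linarith) hδ.le
        _ = n := Real.rpow_one _
        _ ≤ n1 := by exact_mod_cast hnn.le
    rw [← Real.exp_add]
    exact Real.one_le_exp (by linarith)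

/-- the `p`-th moment of the width -/
noncomputable def mom (p n : ℕ) : ℝ :=
  (∑ᶠ f ∈ {f : ZMod (2 * n) → ℤ × ℤ | IsLoop (2 * n) f}, (width (2 * n) f : ℝ) ^ p) /
    ({f : ZMod (2 * n) → ℤ × ℤ | IsLoop (2 * n) f}.ncard : ℝ)

theorem mom_le {n : ℕ} (hn : 1 ≤ n) (p : ℕ) {r : ℝ} (hr : 0 ≤ r)
    (hl : 0 < ({f : ZMod (2 * n) → ℤ × ℤ | IsLoop (2 * n) f}.ncard : ℝ)) :
    mom p n ≤ r ^ p + (2 * (n : ℝ)) ^ p * pw n r := by
  have hfin := loops_finite hn
  unfold mom pw
  rw [div_le_iff₀ hl, finsum_mem_eq_finite_toFinset_sum _ hfin]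
  have h1 : ∀ f ∈ hfin.toFinset, (width (2 * n) f : ℝ) ^ p ≤
      r ^ p + (if r ≤ width (2 * n) f then (2 * (n : ℝ)) ^ p else 0) := by
    intro f hf
    rw [Set.Finite.mem_toFinset] at hf
    have h2 := width_le hn hf
    have h2' : (width (2 * n) f : ℝ) ≤ 2 * n := by exact_mod_cast h2
    have hrp : 0 ≤ r ^ p := pow_nonneg hr p
    split_ifs with h3
    · have := pow_le_pow_left₀ (Nat.cast_nonneg _) h2' p
      linarith
    · push Not at h3
      have := pow_le_pow_left₀ (Nat.cast_nonneg _) h3.le p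
      linarith
  refine (Finset.sum_le_sum h1).trans ?_
  rw [Finset.sum_add_distrib, Finset.sum_const, nsmul_eq_mul, ← Finset.sum_filter,
    Finset.sum_const, nsmul_eq_mul]
  have e1 : (hfin.toFinset.card : ℝ) =
      ({f : ZMod (2 * n) → ℤ × ℤ | IsLoop (2 * n) f}.ncard : ℝ) := by
    rw [Set.ncard_eq_toFinset_card _ hfin]
  have e2 : ((hfin.toFinset.filter (fun f => r ≤ (width (2 * n) f : ℝ))).card : ℝ) =
      ({f : ZMod (2 * n) → ℤ × ℤ | IsLoop (2 * n) f ∧ r ≤ width (2 * n) f}.ncard : ℝ) := by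
    rw [← Set.ncard_coe_finset]
    congr 2
    ext f
    simp
  rw [e1, e2]
  apply le_of_eq
  field_simp

/-- **Moments.** -/
theorem width_mom : ∃ c : ℝ, 0 < c ∧ ∀ p : ℕ, ∃ D : ℝ, 0 < D ∧
    ∀ n : ℕ, 16 ≤ n → mom p n ≤ D * ((n : ℝ) ^ (1 - c / Real.log (Real.log n))) ^ p := by
  obtain ⟨c, C, hc, hc1, hC, h⟩ := width_typ (δ := 4 / 5) (by norm_num) (by norm_num)
  obtain ⟨K0, -, hw⟩ := width_law
  refine ⟨c, hc, fun p => ⟨1 + 2 ^ p * C * (2 * p).factorial, by positivity, fun n hn => ?_⟩⟩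
  have hn16 : (16 : ℝ) ≤ n := by exact_mod_cast hn
  have hn0 : (0 : ℝ) < n := by linarith
  have hll := ll_ge hn
  obtain ⟨hl, -⟩ := hw n (by omega) 1 le_rfl (by omega)
  set X := (n : ℝ) ^ (1 - c / Real.log (Real.log n)) with hX
  have hX1 : 1 ≤ X := by
    apply Real.one_le_rpow (by linarith)
    have : c / Real.log (Real.log n) ≤ 1 := by
      rw [div_le_one (by linarith)]
      linarith
    linarith
  have h1 := mom_le (n := n) (by omega) p (r := X) (by linarith) hl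
  have h2 := h n hn
  have h3 : (n : ℝ) ^ p * Real.exp (-(n : ℝ) ^ (4 / 5 : ℝ)) ≤ (2 * p).factorial := by
    have h4 := Real.pow_div_factorial_le_exp ((n : ℝ) ^ (4 / 5 : ℝ)) (by positivity) (2 * p)
    have h5 : (n : ℝ) ^ p ≤ ((n : ℝ) ^ (4 / 5 : ℝ)) ^ (2 * p) := by
      rw [← Real.rpow_natCast ((n : ℝ) ^ (4 / 5 : ℝ)), ← Real.rpow_mul hn0.le,
        ← Real.rpow_natCast]
      apply Real.rpow_le_rpow_of_exponent_le (by linarith)
      push_cast
      have : (0 : ℝ) ≤ p := Nat.cast_nonneg _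
      linarith
    rw [div_le_iff₀ (by positivity)] at h4
    have h6 := Real.exp_pos ((n : ℝ) ^ (4 / 5 : ℝ))
    rw [Real.exp_neg, ← div_eq_mul_inv, div_le_iff₀ h6]
    linarith
  have h7 : (2 * (n : ℝ)) ^ p * pw n X ≤ 2 ^ p * C * (2 * p).factorial := by
    calc (2 * (n : ℝ)) ^ p * pw n X ≤ (2 * (n : ℝ)) ^ p * (C * Real.exp (-(n : ℝ) ^ (4 / 5 : ℝ))) :=
          mul_le_mul_of_nonneg_left h2 (by positivity)
      _ = 2 ^ p * C * ((n : ℝ) ^ p * Real.exp (-(n : ℝ) ^ (4 / 5 : ℝ))) := by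
          rw [mul_pow]; ring
      _ ≤ 2 ^ p * C * (2 * p).factorial := mul_le_mul_of_nonneg_left h3 (by positivity)
  have h8 : 1 ≤ X ^ p := one_le_pow₀ hX1
  have h9 : 0 ≤ 2 ^ p * C * (2 * p).factorial := by positivity
  nlinarith

end Pool.Agent.T6.H53.WL
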