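import Pool.Agent.Y981.L2.PolyE
import Pool.Agent.Y981.L2X.High
import Pool.Agent.Y981.L2X.Leg

/-!
The rate function of the width of the planar self-avoiding polygons: explicit bounds.
-/

set_option autoImplicit false

namespace Pool.Agent.T6.H53.WL

open Pool.Agent.TH795.EP Pool.Agent.TH795.EP2 Pool.Agent.TH795.SE2 Pool.Agent.TH262.SawL
  Pool.Agent.Y981.L2 H981 Finset Filter Topology

/-- `(1 + log (1/u)) (1 + log (1 + log (1/u)))` -/
noncomputable def Yv (u : ℝ) : ℝ :=
  (1 + Real.log (1 / u)) * (1 + Real.log (1 + Real.log (1 / u)))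

theorem log_inv_nonneg {u : ℝ} (hu : 0 < u) (hu1 : u ≤ 1) : 0 ≤ Real.log (1 / u) :=
  Real.log_nonneg (by rw [le_div_iff₀ hu]; linarith)

theorem Yv_ge {u : ℝ} (hu : 0 < u) (hu1 : u ≤ 1) : 1 + Real.log (1 / u) ≤ Yv u := by
  have hL0 := log_inv_nonneg hu hu1
  have h5 : 0 ≤ Real.log (1 + Real.log (1 / u)) := Real.log_nonneg (by linarith)
  unfold Yv
  nlinarith

theorem one_le_Yv {u : ℝ} (hu : 0 < u) (hu1 : u ≤ 1) : 1 ≤ Yv u := by
  have := log_inv_nonneg hu hu1
  linarith [Yv_ge hu hu1]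

theorem log_mu_nonneg : 0 ≤ Real.log mu :=
  (R_nonneg zero_le_one le_rfl).trans (R_le zero_le_one le_rfl)

/-- **Explicit lower bound of the rate function.** -/
theorem R_lower : ∃ C : ℝ, 1 ≤ C ∧ ∀ u : ℝ, 0 < u → u ≤ 1 →
    Real.exp (-(C * Yv u)) ≤ R u := by
  obtain ⟨c, hc, hm⟩ := Y981.L2X.le_mass
  obtain ⟨e0, he0, hsub⟩ := (mem_nhdsGT_iff_exists_Ioo_subset).1 hm
  have he0' : (0 : ℝ) < e0 := he0
  set s : ℝ := 4 / c + 1 + max 0 (Real.log (1 / e0)) with hs
  have hs4 : 4 / c ≤ s := by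
    have := le_max_left 0 (Real.log (1 / e0))
    rw [hs]; linarith
  have hs1 : 1 ≤ s := by
    have := le_max_left 0 (Real.log (1 / e0))
    have : 0 < 4 / c := by positivity
    rw [hs]; linarith
  have hse : Real.log (1 / e0) < s := by
    have := le_max_right 0 (Real.log (1 / e0))
    have : 0 < 4 / c := by positivity
    rw [hs]; linarith
  have hs0 : 0 < s := by linarith
  have hcs : 4 ≤ c * s := by
    have := mul_le_mul_of_nonneg_left hs4 hc.le
    rw [mul_div_cancel₀ _ hc.ne'] at this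
    exact this
  refine ⟨s ^ 2, one_le_pow₀ hs1, fun u hu hu1 => ?_⟩
  set L := Real.log (1 / u) with hL
  have hL0 : 0 ≤ L := log_inv_nonneg hu hu1
  set l := Real.log (1 + L) with hl
  have hl0 : 0 ≤ l := Real.log_nonneg (by linarith)
  have hY : Yv u = (1 + L) * (1 + l) := rfl
  set T := s ^ 2 * Yv u with hT
  have hY1 : 1 ≤ Yv u := one_le_Yv hu hu1
  have hTs : s ≤ T := by nlinarith
  have hT0 : 0 < T := by linarith
  have hT1 : 1 < T := by
    have h4 : 0 < 4 / c := by positivity
    have h5 := le_max_left 0 (Real.log (1 / e0))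
    have h6 : 1 < s := by rw [hs]; linarith
    linarith
  have he : Real.exp (-T) ∈ Set.Ioo (0 : ℝ) e0 := by
    refine ⟨Real.exp_pos _, ?_⟩
    rw [← Real.lt_log_iff_exp_lt he0']
    have : Real.log (1 / e0) = - Real.log e0 := by rw [one_div, Real.log_inv]
    linarith
  have h1 : Real.exp (-T) ^ (1 - c / Real.log (Real.log (1 / Real.exp (-T)))) ≤
      mass (Real.exp (-T)) := hsub he
  have e1 : Real.log (1 / Real.exp (-T)) = T := by
    rw [one_div, Real.log_inv, Real.log_exp, neg_neg]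
  rw [e1, ← Real.exp_mul] at h1
  have hlT : 0 < Real.log T := Real.log_pos hT1
  have hlT2 : Real.log T ≤ 2 * s * (1 + l) := by
    rw [hT, hY, Real.log_mul (by positivity) (by positivity),
      Real.log_mul (by positivity) (by positivity), Real.log_pow, ← hl]
    have g1 := Real.log_le_sub_one_of_pos hs0
    have g2 := Real.log_le_sub_one_of_pos (show 0 < 1 + l by linarith)
    push_cast
    nlinarith
  have h2 : 1 + L ≤ c / Real.log T * T := by
    rw [div_mul_eq_mul_div, le_div_iff₀ hlT]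
    calc (1 + L) * Real.log T ≤ (1 + L) * (2 * s * (1 + l)) :=
          mul_le_mul_of_nonneg_left hlT2 (by linarith)
      _ = (2 * s) * Yv u := by rw [hY]; ring
      _ ≤ (c * s ^ 2) * Yv u := by
          apply mul_le_mul_of_nonneg_right _ (by linarith)
          nlinarith
      _ = c * T := by rw [hT]; ring
  have h3 := Y981.L2X.le_R hu.le hu1 (Real.exp_pos (-T))
  refine le_trans ?_ h3
  have h4 : u = Real.exp (-L) := by
    rw [hL, one_div, Real.log_inv, neg_neg, Real.exp_log hu]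
  have h5 : Real.exp (-T) * Real.exp 1 ≤ u * mass (Real.exp (-T)) := by
    calc Real.exp (-T) * Real.exp 1 ≤ Real.exp (-L) * Real.exp (-T * (1 - c / Real.log T)) := by
          rw [← Real.exp_add, ← Real.exp_add]
          apply Real.exp_le_exp.2
          linarith
      _ ≤ u * mass (Real.exp (-T)) := by
          rw [← h4]
          exact mul_le_mul_of_nonneg_left h1 hu.le
  have h6 : 2 ≤ Real.exp 1 := by
    have := Real.add_one_le_exp (1 : ℝ)
    linarith
  have h7 := Real.exp_pos (-T)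
  nlinarith

/-- **Explicit upper bound of the rate function.** -/
theorem R_upper : ∃ C : ℝ, 1 ≤ C ∧ ∀ u : ℝ, 0 < u → u ≤ 1 →
    R u ≤ C * (u ^ 2 * (1 + Real.log (1 / u)) ^ 2) := by
  obtain ⟨K, hK, hm⟩ := Y981.L2X.mass_le
  have hmu := log_mu_nonneg
  have hC1 : 1 ≤ 1 + 4 * K ^ 2 + Real.log mu * (K * Real.exp 1) ^ 2 := by
    have h1 := mul_nonneg hmu (sq_nonneg (K * Real.exp 1))
    nlinarith [sq_nonneg K]
  refine ⟨1 + 4 * K ^ 2 + Real.log mu * (K * Real.exp 1) ^ 2, hC1, fun u hu hu1 => ?_⟩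
  set L := Real.log (1 / u) with hL
  have hL0 : 0 ≤ L := log_inv_nonneg hu hu1
  have hp0 : 0 ≤ Real.log mu * (K * Real.exp 1) ^ 2 := by positivity
  have hsq : 1 ≤ (1 + L) ^ 2 := one_le_pow₀ (by linarith)
  have hu2 : 0 < u ^ 2 := by positivity
  have hR0 := R_nonneg hu.le hu1
  have hbig : u ^ 2 ≤ u ^ 2 * (1 + L) ^ 2 := by nlinarith
  have hbig0 : 0 ≤ u ^ 2 * (1 + L) ^ 2 := by positivity
  rcases le_or_gt (R u) (Real.exp (-1)) with hA | hB
  · rcases le_or_gt (R u) (u ^ 2) with h1 | h1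
    · calc R u ≤ u ^ 2 * (1 + L) ^ 2 := h1.trans hbig
        _ = 1 * (u ^ 2 * (1 + L) ^ 2) := by ring
        _ ≤ _ := mul_le_mul_of_nonneg_right (by nlinarith [sq_nonneg K]) hbig0
    · have hr0 : 0 < R u := lt_trans hu2 h1
      have h2 := psi_le_of_R hu hu1 hr0.le le_rfl
      have h3 := le_mass (div_nonneg hr0.le hu.le) h2
      have h4 := hm (R u) hr0 hA
      have hM : 0 ≤ Real.log (1 / R u) := by
        apply Real.log_nonneg
        rw [le_div_iff₀ hr0]
        have : Real.exp (-1) ≤ 1 := by rw [Real.exp_le_one_iff]; norm_num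
        linarith
      have hM2 : Real.log (1 / R u) ≤ 2 * L := by
        have h5 : Real.log (1 / R u) ≤ Real.log ((1 / u) ^ 2) := by
          apply Real.log_le_log (by positivity)
          rw [div_pow, one_pow]
          exact one_div_le_one_div_of_le hu2 h1.le
        rw [Real.log_pow] at h5
        push_cast at h5
        exact h5
      rw [Real.sqrt_mul hr0.le, Real.sqrt_sq hM] at h4
      have hs0 : 0 < Real.sqrt (R u) := Real.sqrt_pos.2 hr0
      have h6 : R u / u ≤ K * (Real.sqrt (R u) * (2 * L)) := h3.trans (h4.trans (by gcongr))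
      rw [div_le_iff₀ hu] at h6
      have h7 : Real.sqrt (R u) * Real.sqrt (R u) = R u := Real.mul_self_sqrt hr0.le
      have h8 : Real.sqrt (R u) ≤ 2 * K * u * L := by
        have h9 : Real.sqrt (R u) * Real.sqrt (R u) ≤ Real.sqrt (R u) * (2 * K * u * L) := by
          rw [h7]
          calc R u ≤ K * (Real.sqrt (R u) * (2 * L)) * u := h6
            _ = _ := by ring
        exact le_of_mul_le_mul_left h9 hs0
      have h10 : R u ≤ (2 * K * u * L) ^ 2 := by
        rw [← h7, ← sq]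
        exact pow_le_pow_left₀ hs0.le h8 2
      have h11 : L ^ 2 ≤ (1 + L) ^ 2 := pow_le_pow_left₀ hL0 (by linarith) 2
      calc R u ≤ (2 * K * u * L) ^ 2 := h10
        _ = 4 * K ^ 2 * (u ^ 2 * L ^ 2) := by ring
        _ ≤ 4 * K ^ 2 * (u ^ 2 * (1 + L) ^ 2) := by gcongr
        _ ≤ _ := mul_le_mul_of_nonneg_right (by linarith) hbig0
  · have he : 0 < Real.exp (-1) := Real.exp_pos _
    have h2 := psi_le_of_R hu hu1 he.le hB.le
    have h3 := le_mass (div_nonneg he.le hu.le) h2
    have h4 := hm (Real.exp (-1)) he le_rfl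
    have e1 : Real.log (1 / Real.exp (-1)) = 1 := by
      rw [one_div, Real.log_inv, Real.log_exp, neg_neg]
    rw [e1] at h4
    have h5 : Real.sqrt (Real.exp (-1) * 1 ^ 2) ≤ 1 := by
      apply Real.sqrt_le_one.2
      have : Real.exp (-1) ≤ 1 := by rw [Real.exp_le_one_iff]; norm_num
      linarith
    have h6 : Real.exp (-1) / u ≤ K := by
      refine h3.trans (h4.trans ?_)
      nlinarith
    rw [div_le_iff₀ hu] at h6
    have h7 : 1 ≤ K * Real.exp 1 * u := by
      have h8 := mul_le_mul_of_nonneg_right h6 (Real.exp_pos 1).le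
      rw [← Real.exp_add] at h8
      norm_num at h8
      linarith
    have h9 : 1 ≤ (K * Real.exp 1 * u) ^ 2 := one_le_pow₀ h7
    calc R u ≤ Real.log mu := R_le hu.le hu1
      _ = Real.log mu * 1 := by ring
      _ ≤ Real.log mu * (K * Real.exp 1 * u) ^ 2 := mul_le_mul_of_nonneg_left h9 hmu
      _ = Real.log mu * (K * Real.exp 1) ^ 2 * u ^ 2 := by ring
      _ ≤ Real.log mu * (K * Real.exp 1) ^ 2 * (u ^ 2 * (1 + L) ^ 2) :=
          mul_le_mul_of_nonneg_left hbig hp0
      _ ≤ _ := mul_le_mul_of_nonneg_right (by nlinarith [sq_nonneg K]) hbig0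

theorem R_pos {u : ℝ} (hu : 0 < u) (hu1 : u ≤ 1) : 0 < R u := by
  obtain ⟨C, -, h⟩ := R_lower
  exact (Real.exp_pos _).trans_le (h u hu hu1)

theorem R_strict {u v : ℝ} (hu : 0 ≤ u) (huv : u < v) (hv : v ≤ 1) : R u < R v := by
  have hv0 : 0 < v := hu.trans_lt huv
  have hp := R_pos hv0 hv
  have h1 := R_smul (v := v) (t := u / v) hv0.le hv (by positivity)
    (by rw [div_le_one hv0]; exact huv.le)
  rw [div_mul_cancel₀ _ hv0.ne'] at h1
  have h2 : u / v < 1 := (div_lt_one hv0).2 huv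
  calc R u ≤ u / v * R v := h1
    _ < 1 * R v := mul_lt_mul_of_pos_right h2 hp
    _ = R v := one_mul _

theorem all_E {w : List St} (h : dx w = w.length) : w = List.replicate w.length St.E := by
  induction w with
  | nil => rfl
  | cons s w ih =>
    rw [dx_cons, List.length_cons] at h
    push_cast at h
    have h1 : dx w ≤ w.length := by
      have h2 := abs_add_abs_le w
      have h3 := le_abs_self (dx w)
      have h4 := abs_nonneg (dy w)
      linarith
    have h5 := St.x_le s
    have h6 : 0 < s.x := by omega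
    have h7 := St.eq_E_of_x_pos h6
    rw [List.length_cons, List.replicate_succ, h7, ← ih (by rw [h7] at h; simp at h; omega)]

theorem a_straight (n : ℕ) : a n n 0 ≤ 1 := by
  unfold a
  rw [Finset.card_le_one]
  intro u hu v hv
  rw [mem_fs] at hu hv
  have h1 := all_E (w := u) (by rw [hu.1.2.1, hu.2])
  have h2 := all_E (w := v) (by rw [hv.1.2.1, hv.2])
  rw [h1, h2, hu.2, hv.2]

theorem R_one : R 1 = Real.log mu := by
  apply le_antisymm (R_le zero_le_one le_rfl)
  obtain ⟨K, hK, h⟩ := axis_ldp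
  apply le_of_log (C := K)
  intro n hn
  obtain ⟨h1, h2⟩ := h n hn n (by omega) le_rfl
  have hn0 : (0 : ℝ) < n := by exact_mod_cast (by omega : 0 < n)
  rw [div_self hn0.ne'] at h2
  have h3 := (abs_le.1 h2).1
  have hc : (0 : ℝ) < c (2 * n) := c_pos _
  have ha := a_straight (2 * n)
  have ha' : (a (2 * n) (2 * (n : ℤ)) 0 : ℝ) ≤ 1 := by
    have e : ((2 * n : ℕ) : ℤ) = 2 * (n : ℤ) := by push_cast; ring
    rw [e] at ha
    exact_mod_cast ha
  have h4 : Real.log ((a (2 * n) (2 * (n : ℤ)) 0 : ℝ) / c (2 * n)) ≤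
      - (2 * n * Real.log mu) := by
    have h5 : (a (2 * n) (2 * (n : ℤ)) 0 : ℝ) / c (2 * n) ≤ (mu ^ (2 * n))⁻¹ := by
      rw [← one_div]
      apply div_le_div₀ zero_le_one ha' (by have := mu_pos; positivity)
      rw [c_eq]
      exact mu_pow_le _
    have h6 := Real.log_le_log h1 h5
    rw [Real.log_inv, Real.log_pow] at h6
    push_cast at h6
    exact h6
  have h7 : 0 ≤ K * Real.log n ^ 2 := by positivity
  linarith

end Pool.Agent.T6.H53.WL
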